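import Pool.Agent.R58.KBentFinal

/-!
MP_0e3175_co, Q1: classification of the `(n/2)`-bent Boolean functions for every even `n`.
A function in `n = 2m` variables is `(n/2)`-bent exactly when, up to an affine function, it is the
sum of `x_i x_j` over the pairs lying inside `A` or inside the complement of `A`, for a set `A` of
even size.  The same description holds for `k`-bent functions for every `2 ≤ k ≤ n/2`.
-/

namespace Pool.Agent.Results.MP_0e3175_co.TwoCliques

open Pool.Agent.R58.KBent

theorem result :
    ∀ m : ℕ, 1 ≤ m → ∀ f : (Fin (2 * m) → ZMod 2) → ZMod 2,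
      (IsKBent m f ↔ IsTwoClique f) ∧
      (∀ k : ℕ, 2 ≤ k → k ≤ m → (IsKBent k f ↔ IsTwoClique f)) := by
  intro m hm f
  refine ⟨⟨?_, kbent_of_twoClique m f⟩, ?_⟩
  · intro hf
    rcases Nat.lt_or_ge 1 m with h | h
    · exact twoClique_of_kbent h (by omega) f hf
    · obtain rfl : m = 1 := by omega
      exact twoClique_of_bent_two (le_refl _) f hf
  · intro k hk hkm
    exact ⟨fun hf => twoClique_of_kbent (by omega) hk f hf, kbent_of_twoClique k f⟩

end Pool.Agent.Results.MP_0e3175_co.TwoCliques
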